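import Mathlib
import Pool.Agent.H68R2.BP.Props2

/-!
BP project (helper68), task G_fin: local result, finite continuous case.
-/

open scoped ComplexOrder InnerProductSpace ComplexConjugate Topology
open Finset Filter

noncomputable section

namespace H68R2.BP

open H759R2.Kad H744R2.KZ

theorem prove_G_fin (h0 : P_minrep) (h1 : S_fin) (h2 : E_hb) (h3 : E_ext) (h4 : G_std) :
    G_fin := by
  intro H _ _ _ M P C hP z hz hz0 hNA hNTr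
  obtain ⟨k, Ω₀, hzΩ₀, hsep₀, htr₀⟩ := hNTr
  obtain ⟨hzPr, hzCen⟩ := hz
  have hzz : z * z = z := hzPr.2
  have hzM : z ∈ M := hzCen.1
  have hcomm : ∀ x ∈ M, z * x = x * z := fun x hx => hzCen.2 x hx
  have hCnr : ∀ a, a ∈ Cnr M z ↔ a ∈ M ∧ z * a = a := by
    intro a
    constructor
    · intro h; exact ⟨h.1, h.2.1⟩
    · intro h; exact ⟨h.1, h.2, by rw [← hcomm a h.1]; exact h.2⟩
  have hΩ₀ : Ω₀ ≠ 0 := by
    intro h
    apply hz0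
    apply hsep₀ z hzM hzz
    rw [h, map_zero]
  have hn : ‖Ω₀‖ ≠ 0 := norm_ne_zero_iff.mpr hΩ₀
  obtain ⟨Ω, hΩdef⟩ : ∃ Ω : HH (Fin k) H, Ω = ((‖Ω₀‖⁻¹ : ℝ) : ℂ) • Ω₀ := ⟨_, rfl⟩
  have hdgΩ : ∀ a : H →L[ℂ] H, dg k a Ω = ((‖Ω₀‖⁻¹ : ℝ) : ℂ) • dg k a Ω₀ := by
    intro a
    rw [hΩdef, map_smul]
  have hcn : ‖((‖Ω₀‖⁻¹ : ℝ) : ℂ)‖ = ‖Ω₀‖⁻¹ := by
    rw [Complex.norm_real, Real.norm_of_nonneg (by positivity)]
  have hnormdg : ∀ a : H →L[ℂ] H, ‖dg k a Ω‖ = ‖Ω₀‖⁻¹ * ‖dg k a Ω₀‖ := by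
    intro a
    rw [hdgΩ, norm_smul, hcn]
  have hΩ1 : ‖Ω‖ = 1 := by
    rw [hΩdef, norm_smul, hcn]
    exact inv_mul_cancel₀ hn
  have hzΩ : dg k z Ω = Ω := by
    rw [hdgΩ, hzΩ₀, ← hΩdef]
  have hsep : ∀ a ∈ Cnr M z, dg k a Ω = 0 → a = 0 := by
    intro a ha h
    apply hsep₀ a ha.1 ha.2.1
    have h5 : ‖dg k a Ω‖ = 0 := by rw [h, norm_zero]
    rw [hnormdg] at h5
    have h6 := (mul_eq_zero.mp h5).resolve_left (inv_ne_zero hn)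
    exact norm_eq_zero.mp h6
  have htr : ∀ x ∈ M, z * x = x → ‖dg k (star x) Ω‖ ^ 2 ≤ 2 * ‖dg k x Ω‖ ^ 2 := by
    intro x hx hzx
    have h5 := htr₀ x hx hzx
    rw [hnormdg, hnormdg, mul_pow, mul_pow]
    have h6 : 0 ≤ ‖Ω₀‖⁻¹ ^ 2 := by positivity
    have h7 := mul_le_mul_of_nonneg_left h5 h6
    linarith
  obtain ⟨κ, b, S, _, _, _, l₀, r₀, th, hmin⟩ := h0 H
  obtain ⟨L, _, _, _, l, r, w, hstd, hlw⟩ := h4 H M z hzM hzPr k Ω hzΩ hsep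
  have hzC : z ∈ Cnr M z := (hCnr z).mpr ⟨hzM, hzz⟩
  have hw1 : ‖w‖ = 1 := by
    have h5 := hlw z hzC
    rw [hstd.l_p, hzΩ, hΩ1] at h5
    simpa using h5
  have hS := h1 H S κ b l₀ r₀ th hmin M P C hP z ⟨hzPr, hzCen⟩ hNA k Ω hzΩ hΩ1 htr L l r w
    hstd.bi (fun a ha => ⟨hlw a ha, (hstd.sym a ha).trans (hlw a ha)⟩) hw1
  have hsmul : ∀ a ∈ Cnr M z, ∀ c : ℂ, c • a ∈ Cnr M z := by
    intro a ha c
    refine (hCnr _).mpr ⟨?_, ?_⟩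
    · exact M.toStarSubalgebra.smul_mem ha.1 c
    · rw [mul_smul_comm, ha.2.1]
  have hqsmul : ∀ (c : ℂ) (a : H →L[ℂ] H),
      (⟪w, l (c • a) (r (c • a) w)⟫_ℂ).re = ‖c‖ ^ 2 * (⟪w, l a (r a w)⟫_ℂ).re := by
    intro c a
    rw [hstd.bi.l_smul, hstd.bi.r_smul]
    simp only [ContinuousLinearMap.smul_apply, map_smul, inner_smul_right]
    rw [← mul_assoc, mul_comm ((starRingEnd ℂ) c) c, Complex.mul_conj, Complex.re_ofReal_mul,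
      Complex.normSq_eq_norm_sq]
  have hqp : (⟪w, l z (r z w)⟫_ℂ).re = 1 := by
    rw [hstd.l_p, hstd.r_p]
    simp only [ContinuousLinearMap.one_apply]
    rw [inner_self_eq_norm_sq_to_K, hw1]
    simp
  obtain ⟨F, F1, F2, F3, F4, F5, _, F7, F8⟩ := h2 H S κ b l₀ r₀ th hmin (Cnr M z) z
    (fun x => (⟪w, l x (r x w)⟫_ℂ).re) hzPr hzC hsmul hqsmul hqp (by
      intro ι _ x hx
      have h5 := hS ι x hx
      refine le_trans ?_ h5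
      refine le_trans ?_ (Complex.re_le_norm _)
      apply le_of_eq
      have h6 : TT l r x w = ∑ i, l (x i) (r (x i) w) := by
        unfold TT
        rw [ContinuousLinearMap.sum_apply]
        rfl
      rw [h6, inner_sum, Complex.re_sum])
  obtain ⟨E, E1, E2, E3⟩ := h3 H L M z hzM hzPr l r w hstd hw1 F F1 F2 F3 F4 F5 F7 F8
  refine ⟨E, E1, fun x => ⟨(E2 x).1, (E2 x).2.1⟩, fun m hm hzm => ?_⟩
  exact E3 m ((hCnr m).mpr ⟨hm, hzm⟩)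

end H68R2.BP
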